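import Pool.Agent.J4H13.PL.Jobs

/-!
# Project PL: job GENIND

If a field is generated by `card β` elements and contains `card α ≥ card β` algebraically independent elements, then the
generators are algebraically independent, and the field is a field of rational functions.
-/

set_option autoImplicit false

open MvPolynomial

namespace Pool.Agent.J4H71.PL

open Pool.Agent.J4H13.BC Pool.Agent.J4H13.PL

variable {K : Type} [Field K] [Algebra ℂ K]

open scoped IntermediateField.algebraAdjoinAdjoin in
lemma algInd_of_card {α β : Type} [Fintype α] [Fintype β] {x : α → K} {y : β → K}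
    (hx : AlgebraicIndependent ℂ x) (hc : Fintype.card β ≤ Fintype.card α)
    (hm : ∀ a, x a ∈ IntermediateField.adjoin ℂ (Set.range y)) :
    AlgebraicIndependent ℂ y := by
  classical
  obtain ⟨S, hS⟩ : ∃ S : Set K, S = Set.range y := ⟨_, rfl⟩
  rw [← hS] at hm
  let B := Algebra.adjoin ℂ S
  let L := IntermediateField.adjoin ℂ S
  have h1 : (Fintype.card α : Cardinal) ≤ Algebra.trdeg ℂ L := by
    have h2 : AlgebraicIndependent ℂ (fun i : α => (⟨x i, hm i⟩ : L)) := by
      apply AlgebraicIndependent.of_comp (L.val)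
      exact hx
    have h3 := h2.cardinalMk_le_trdeg
    simpa using h3
  have h2 : Algebra.IsAlgebraic B L := inferInstance
  have h3 : FaithfulSMul B L := by
    rw [faithfulSMul_iff_algebraMap_injective]
    intro a b hab
    apply Subtype.ext
    exact congrArg (fun z : L => (z : K)) hab
  have h8 : IsScalarTower ℂ B L := IsScalarTower.of_algebraMap_eq fun c => rfl
  have h4 := trdeg_add_eq ℂ B (A := L)
  have h5 : Algebra.trdeg B L = 0 := trdeg_eq_zero_iff.2 h2
  rw [h5, add_zero] at h4
  let x' : β → B := fun i => ⟨y i, Algebra.subset_adjoin (by rw [hS]; exact ⟨i, rfl⟩)⟩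
  have h6 : Algebra.adjoin ℂ (Set.range x') = ⊤ := by
    have h7 : (Algebra.adjoin ℂ (Set.range x')).map B.val = B := by
      rw [AlgHom.map_adjoin, ← Set.range_comp]
      change Algebra.adjoin ℂ (Set.range y) = _
      rw [← hS]
    rw [eq_top_iff]
    rintro ⟨b, hb⟩ -
    have hb' := hb
    change b ∈ B at hb'
    rw [← h7] at hb'
    obtain ⟨c, hc, hcb⟩ := hb'
    have : c = ⟨b, hb⟩ := Subtype.ext hcb
    rw [← this]
    exact hc
  have h7 : Algebra.IsAlgebraic (Algebra.adjoin ℂ (Set.range x')) B := by
    rw [h6]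
    refine ⟨fun b => ?_⟩
    have : b = algebraMap (⊤ : Subalgebra ℂ B) B ⟨b, trivial⟩ := rfl
    rw [this]
    exact isAlgebraic_algebraMap _
  have h9 : IsTranscendenceBasis ℂ x' := by
    apply Algebra.IsAlgebraic.isTranscendenceBasis_of_le_trdeg_of_finite ℂ x'
    rw [h4, Cardinal.mk_fintype]
    exact le_trans (by exact_mod_cast hc) h1
  have h10 := h9.1.map' (f := B.val) Subtype.val_injective
  exact h10

theorem t_GENIND : Pool.Agent.J4H13.PL.S_GENIND := by
  intro K _ _ α β _ _ x y hx hc hm
  have h1 := algInd_of_card hx hc hm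
  refine ⟨h1, Fintype.card β, ?_⟩
  let e := (Fintype.equivFin β).symm
  have h2 : AlgebraicIndependent ℂ (y ∘ e) := h1.comp e e.injective
  have h3 : Set.range (y ∘ e) = Set.range y := e.surjective.range_comp y
  rw [← h3]
  exact ⟨h2.reprField⟩

end Pool.Agent.J4H71.PL
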