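import Pool.Agent.J4H71.PL.Ind

/-!
# Project PL: job GOODL

If one of the factors is good, then the field generated by the coordinates and the square root is contained in a field of
rational functions.
-/

set_option autoImplicit false

namespace Pool.Agent.J4H71.PL

open Pool.Agent.J4H13.BC Pool.Agent.J4H13.PL

theorem t_GOODL : Pool.Agent.J4H13.PL.S_GOODL := by
  intro hG hA K _ _ ι _ _ n X hX ha S hS v hv i₀ hP
  obtain ⟨m, y, s, c, u, hm, hc, hc0, hu, hu0, hF, hXk⟩ := hP
  let A : Type := {i : ι // i ≠ i₀}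
  let β : Type := ((p : A) × Fin (n p.1)) ⊕ Option (Fin m)
  let z : β → K := Sum.elim (fun p => X p.1.1 p.2.succ) (fun o => o.elim (v / u) y)
  let L : IntermediateField ℂ K := IntermediateField.adjoin ℂ (Set.range z)
  have hz : ∀ b, z b ∈ L := fun b => IntermediateField.subset_adjoin _ _ ⟨b, rfl⟩
  have h1 : ∀ i, AlgebraicIndependent ℂ fun k : Fin (n i) => X i k.succ := fun i =>
    ha.comp (fun k : Fin (n i) => (⟨i, k⟩ : (i : ι) × Fin (n i))) (fun k l h => by
      exact eq_of_heq (Sigma.mk.inj h).2)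
  have hXi : ∀ i, i ≠ i₀ → ∀ k, X i k ∈ L := by
    intro i hi k
    refine Fin.cases ?_ (fun k => ?_) k
    · rw [hX]
      exact L.one_mem
    · exact hz (Sum.inl ⟨⟨i, hi⟩, k⟩)
  have hy : ∀ k, y k ∈ L := fun k => hz (Sum.inr (some k))
  have hv' : v / u ∈ L := hz (Sum.inr none)
  have hcL : c ∈ L := by
    refine (IntermediateField.adjoin_le_iff.2 ?_ : IntermediateField.adjoin ℂ (Set.range y) ≤ L) hc
    rintro _ ⟨k, rfl⟩
    exact hy k
  obtain ⟨c₀, hc₀⟩ : ∃ c₀ : K, c₀ = ∏ i ∈ Finset.univ.erase i₀, ∏ l ∈ S i, lf (X i) l := ⟨_, rfl⟩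
  have hlf : ∀ i (l : VV (n i)), l ≠ 0 → lf (X i) l ≠ 0 := fun i l hl =>
    (hA K (n i) (X i) ⟨hX i, h1 i⟩).1 l hl
  have hc₀0 : c₀ ≠ 0 := by
    rw [hc₀]
    refine Finset.prod_ne_zero_iff.2 fun i _ => Finset.prod_ne_zero_iff.2 fun l hl => hlf i l ?_
    rintro rfl
    exact hS i hl
  have hc₀L : c₀ ∈ L := by
    rw [hc₀]
    refine L.prod_mem fun i hi => L.prod_mem fun l _ => ?_
    rw [lf]
    exact L.sum_mem fun k _ => L.mul_mem (L.algebraMap_mem _) (hXi i (Finset.ne_of_mem_erase hi) k)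
  have hs : s = (v / u) ^ 2 / (c₀ * c) := by
    have h2 : v ^ 2 = (c * s * u ^ 2) * c₀ := by
      rw [hv, ← Finset.mul_prod_erase _ _ (Finset.mem_univ i₀), hF, hc₀]
    field_simp
    rw [h2]
    ring
  have hsL : s ∈ L := by
    rw [hs]
    exact L.div_mem (pow_mem hv' 2) (L.mul_mem hc₀L hcL)
  have hX0 : ∀ k, X i₀ k ∈ L := by
    intro k
    refine (IntermediateField.adjoin_le_iff.2 ?_ :
      IntermediateField.adjoin ℂ (insert s (Set.range y)) ≤ L) (hXk k)
    rintro _ (rfl | ⟨k, rfl⟩)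
    · exact hsL
    · exact hy k
  have hXL : ∀ i k, X i k ∈ L := by
    intro i k
    by_cases hi : i = i₀
    · subst hi
      exact hX0 k
    · exact hXi i hi k
  have huL : u ∈ L := by
    refine (IntermediateField.adjoin_le_iff.2 ?_ :
      IntermediateField.adjoin ℂ (Set.range (X i₀)) ≤ L) hu
    rintro _ ⟨k, rfl⟩
    exact hX0 k
  have hvL : v ∈ L := by
    have : v = v / u * u := (div_mul_cancel₀ _ hu0).symm
    rw [this]
    exact L.mul_mem hv' huL
  refine ⟨L, hXL, hvL, ?_⟩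
  refine (hG K ((i : ι) × Fin (n i)) β _ z ha ?_ fun a => hXL _ _).2
  have h2 : Fintype.card β = (∑ i ∈ Finset.univ.erase i₀, n i) + (m + 1) := by
    rw [Fintype.card_sum, Fintype.card_option, Fintype.card_fin, Fintype.card_sigma]
    congr 1
    simp only [Fintype.card_fin]
    rw [Finset.sum_subtype (Finset.univ.erase i₀) (p := fun i => i ≠ i₀)
      (fun i => by simp) n]
  rw [h2, Fintype.card_sigma, ← Finset.sum_erase_add _ _ (Finset.mem_univ i₀)]
  simp only [Fintype.card_fin]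
  omega

end Pool.Agent.J4H71.PL
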