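import Pool.Agent.J4H13.PL.Jobs

/-!
# Project PL: job IND

The ratios of the members of linearly independent families of linear forms on the factors are algebraically independent.
-/

set_option autoImplicit false

open MvPolynomial

namespace Pool.Agent.J4H71.PL

open Pool.Agent.J4H13.BC Pool.Agent.J4H13.PL

variable {K : Type} [Field K] [Algebra ℂ K]

lemma lf_eq {n : ℕ} (z : Fin (n + 1) → K) (hz : z 0 = 1) (v : VV n) :
    lf z v = algebraMap ℂ K (v 0) + ∑ k : Fin n, algebraMap ℂ K (v k.succ) * z k.succ := by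
  rw [lf, Fin.sum_univ_succ, hz, mul_one]

/-- linear forms do not vanish at a generic point -/
lemma lf_ne_zero {n : ℕ} (z : Fin (n + 1) → K) (hz : z 0 = 1)
    (ha : AlgebraicIndependent ℂ fun k : Fin n => z k.succ) (v : VV n) (hv : v ≠ 0) : lf z v ≠ 0 := by
  intro h
  apply hv
  rw [lf_eq z hz] at h
  let p : MvPolynomial (Fin n) ℂ := C (v 0) + ∑ k : Fin n, C (v k.succ) * X k
  have h1 : aeval (fun k : Fin n => z k.succ) p = 0 := by
    rw [← h]
    simp only [p, map_add, map_sum, map_mul, aeval_X, aeval_C]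
  have h2 : p = 0 := by
    have := ha
    rw [AlgebraicIndependent, ] at this
    apply this
    rw [h1, map_zero]
  have h3 : ∀ w : Fin n → ℂ, v 0 + ∑ k : Fin n, v k.succ * w k = 0 := by
    intro w
    have h4 : eval w p = 0 := by rw [h2, map_zero]
    simpa only [p, map_add, map_sum, map_mul, eval_X, eval_C] using h4
  have h5 : v 0 = 0 := by
    have := h3 0
    simpa using this
  funext k
  refine Fin.cases h5 (fun k => ?_) k
  have := h3 (Pi.single k 1)
  rw [h5, zero_add, Finset.sum_eq_single k] at this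
  · simpa using this
  · intro j _ hj
    rw [Pi.single_eq_of_ne hj, mul_zero]
  · intro h
    exact absurd (Finset.mem_univ k) h

lemma lf_add {n : ℕ} (z : Fin (n + 1) → K) (v w : VV n) : lf z (v + w) = lf z v + lf z w := by
  simp only [lf, Pi.add_apply, map_add, add_mul, Finset.sum_add_distrib]

lemma lf_smul {n : ℕ} (z : Fin (n + 1) → K) (a : ℂ) (v : VV n) :
    lf z (a • v) = algebraMap ℂ K a * lf z v := by
  simp only [lf, Pi.smul_apply, smul_eq_mul, map_mul, Finset.mul_sum, mul_assoc]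

lemma lf_zero {n : ℕ} (z : Fin (n + 1) → K) : lf z (0 : VV n) = 0 := by
  simp [lf]

lemma lf_sum {n : ℕ} (z : Fin (n + 1) → K) {α : Type} (s : Finset α) (g : α → VV n) :
    lf z (∑ a ∈ s, g a) = ∑ a ∈ s, lf z (g a) := by
  classical
  induction s using Finset.induction_on with
  | empty => simp [lf_zero]
  | insert a s ha ih => rw [Finset.sum_insert ha, Finset.sum_insert ha, lf_add, ih]

lemma lf_single {n : ℕ} (z : Fin (n + 1) → K) (k : Fin (n + 1)) :
    lf z (Pi.single k (1 : ℂ) : VV n) = z k := by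
  rw [lf, Finset.sum_eq_single k]
  · rw [Pi.single_eq_same, map_one, one_mul]
  · intro j _ hj
    rw [Pi.single_eq_of_ne hj, map_zero, zero_mul]
  · intro h
    exact absurd (Finset.mem_univ k) h

/-- extension to a basis -/
lemma exists_ext {m r : ℕ} (b : Fin (r + 1) → VV m) (hb : LinearIndependent ℂ b) :
    ∃ B : Fin (m + 1) → VV m, LinearIndependent ℂ B ∧ ∃ e : Fin r → Fin m, Function.Injective e ∧
      B 0 = b 0 ∧ ∀ k, B (e k).succ = b k.succ := by
  classical
  have hs : LinearIndepOn ℂ id (Set.range b) := hb.linearIndepOn_id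
  let T : Set (VV m) := hs.extend (Set.subset_univ _)
  let β : Module.Basis T ℂ (VV m) := Module.Basis.extend hs
  have hT : ∀ k, b k ∈ T := fun k => hs.subset_extend _ ⟨k, rfl⟩
  have : Fintype T := FiniteDimensional.fintypeBasisIndex β
  have hcard : Fintype.card (Fin (m + 1)) = Fintype.card T := by
    rw [← Module.finrank_eq_card_basis β, Module.finrank_fin_fun, Fintype.card_fin]
  let σ₀ : Fin (m + 1) ≃ T := Fintype.equivOfCardEq hcard
  let σ : Fin (m + 1) ≃ T := (Equiv.swap 0 (σ₀.symm ⟨b 0, hT 0⟩)).trans σ₀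
  have hσ0 : σ 0 = ⟨b 0, hT 0⟩ := by
    simp [σ]
  have h1 : ∀ k : Fin r, ∃ j : Fin m, j.succ = σ.symm ⟨b k.succ, hT k.succ⟩ := by
    intro k
    apply Fin.exists_succ_eq.2
    intro h
    have h2 : (⟨b k.succ, hT k.succ⟩ : T) = σ 0 := by rw [← h, Equiv.apply_symm_apply]
    rw [hσ0] at h2
    have h3 := hb.injective (congrArg Subtype.val h2)
    exact Fin.succ_ne_zero k h3
  choose e he using h1
  refine ⟨fun k => β (σ k), β.linearIndependent.comp σ σ.injective, e, ?_, ?_, ?_⟩
  · intro j k hjk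
    have h2 := he j
    rw [hjk, he k] at h2
    have h3 := congrArg Subtype.val (σ.symm.injective h2)
    exact (Fin.succ_injective _ (hb.injective h3)).symm
  · change β (σ 0) = b 0
    rw [hσ0]
    exact congrFun (Module.Basis.coe_extend hs) _
  · intro k
    change β (σ (e k).succ) = b k.succ
    rw [he k, Equiv.apply_symm_apply]
    exact congrFun (Module.Basis.coe_extend hs) _

lemma exists_family {ι I : Type} (T : ι → Type) (f : I → ι) (hf : Function.Injective f)
    (Q : (i : ι) → T i → Prop) (P : (j : I) → T (f j) → Prop) (h1 : ∀ i, ∃ t, Q i t)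
    (h2 : ∀ j, ∃ t, Q (f j) t ∧ P j t) :
    ∃ t : (i : ι) → T i, (∀ i, Q i (t i)) ∧ ∀ j, P j (t (f j)) := by
  have h3 : ∀ i, ∃ t : T i, Q i t ∧ ∀ (j : I) (h : f j = i), P j (h ▸ t) := by
    intro i
    by_cases hi : ∃ j, f j = i
    · obtain ⟨j, rfl⟩ := hi
      obtain ⟨t, ht, ht'⟩ := h2 j
      refine ⟨t, ht, fun j' h => ?_⟩
      obtain rfl := hf h
      exact ht'
    · obtain ⟨t, ht⟩ := h1 i
      exact ⟨t, ht, fun j h => absurd ⟨j, h⟩ hi⟩
  choose t ht ht' using h3
  exact ⟨t, ht, fun j => ht' (f j) j rfl⟩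

/-- the case of bases -/
lemma ind_full (hG : S_GENIND) {ι : Type} [Fintype ι] [DecidableEq ι] {n : ι → ℕ}
    {X : (i : ι) → Fin (n i + 1) → K} (hX : ∀ i, X i 0 = 1)
    (ha : AlgebraicIndependent ℂ fun p : (i : ι) × Fin (n i) => X p.1 p.2.succ)
    (B : (i : ι) → Fin (n i + 1) → VV (n i)) (hB : ∀ i, LinearIndependent ℂ (B i)) :
    AlgebraicIndependent ℂ fun p : (i : ι) × Fin (n i) =>
      lf (X p.1) (B p.1 p.2.succ) / lf (X p.1) (B p.1 0) := by
  refine (hG K ((i : ι) × Fin (n i)) ((i : ι) × Fin (n i)) _ _ ha le_rfl ?_).1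
  obtain ⟨L, hL⟩ : ∃ L : IntermediateField ℂ K, L = IntermediateField.adjoin ℂ
    (Set.range fun p : (i : ι) × Fin (n i) => lf (X p.1) (B p.1 p.2.succ) / lf (X p.1) (B p.1 0)) :=
    ⟨_, rfl⟩
  rw [← hL]
  have h1 : ∀ i, AlgebraicIndependent ℂ fun k : Fin (n i) => X i k.succ := fun i =>
    ha.comp (fun k : Fin (n i) => (⟨i, k⟩ : (i : ι) × Fin (n i))) (fun k l h => by
      exact eq_of_heq (Sigma.mk.inj h).2)
  have h2 : ∀ i, lf (X i) (B i 0) ≠ 0 := fun i =>
    lf_ne_zero _ (hX i) (h1 i) _ ((hB i).ne_zero 0)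
  have h3 : ∀ i k, lf (X i) (B i k) / lf (X i) (B i 0) ∈ L := by
    intro i k
    refine Fin.cases ?_ (fun k => ?_) k
    · rw [div_self (h2 i)]
      exact L.one_mem
    · rw [hL]
      exact IntermediateField.subset_adjoin _ _ ⟨⟨i, k⟩, rfl⟩
  have h4 : ∀ i (v : VV (n i)), lf (X i) v / lf (X i) (B i 0) ∈ L := by
    intro i v
    have h5 : v ∈ Submodule.span ℂ (Set.range (B i)) := by
      rw [(hB i).span_eq_top_of_card_eq_finrank' (by rw [Module.finrank_fin_fun, Fintype.card_fin])]
      trivial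
    obtain ⟨c, hc⟩ := (Submodule.mem_span_range_iff_exists_fun ℂ).1 h5
    rw [← hc, lf_sum, Finset.sum_div]
    refine L.sum_mem fun k _ => ?_
    rw [lf_smul, mul_div_assoc]
    exact L.mul_mem (L.algebraMap_mem _) (h3 i k)
  have h5 : ∀ i, lf (X i) (B i 0) ∈ L := by
    intro i
    have h6 := h4 i (Pi.single 0 1)
    rw [lf_single, hX, one_div] at h6
    have h7 := L.inv_mem h6
    rwa [inv_inv] at h7
  rintro ⟨i, k⟩
  have h6 := L.mul_mem (h4 i (Pi.single k.succ 1)) (h5 i)
  rw [div_mul_cancel₀ _ (h2 i), lf_single] at h6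
  exact h6

theorem t_IND : Pool.Agent.J4H13.PL.S_IND := by
  intro hG K _ _ ι _ _ n X hX ha I _ _ f hf r b hb
  obtain ⟨B, hB, hB'⟩ := exists_family (fun i => Fin (n i + 1) → VV (n i)) f hf
    (fun i t => LinearIndependent ℂ t)
    (fun j t => ∃ e : Fin (r j) → Fin (n (f j)), Function.Injective e ∧
      t 0 = b j 0 ∧ ∀ k, t (e k).succ = b j k.succ)
    (fun i => ⟨fun k => Pi.single k 1, by
      have := (Pi.basisFun ℂ (Fin (n i + 1))).linearIndependent
      convert this using 1
      funext k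
      simp⟩)
    (fun j => exists_ext (b j) (hb j))
  choose e he he0 hek using hB'
  have h1 := ind_full hG hX ha B hB
  have h2 := h1.comp (fun a : (j : I) × Fin (r j) => (⟨f a.1, e a.1 a.2⟩ : (i : ι) × Fin (n i))) (by
    rintro ⟨j, k⟩ ⟨j', k'⟩ h
    have h3 : j = j' := hf (congrArg Sigma.fst h)
    subst h3
    have h4 : e j k = e j k' := eq_of_heq (Sigma.mk.inj h).2
    rw [he j h4])
  convert h2 using 1
  funext a
  simp only [Function.comp_apply, he0, hek]

end Pool.Agent.J4H71.PL
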